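import Pool.Agent.Helper93.HZ.Spec1

/-!
# HZ: elliptic and hyperbolic automorphisms of the Bass-Serre tree
-/

set_option autoImplicit false

open MulAction Pointwise

namespace Pool.Agent.Helper93.HZ

section
variable {U : Type} {T : SimpleGraph U}

theorem tfd_back {F : U → U} (hF : IsField T F) {u w : U} (ha : T.Adj u w) (h : F u ≠ w) : F w = u := by
  by_contra h2
  exact h ((hF.2 u w ha).2 h2)

theorem tfd_back' {F : U → U} (hF : IsField T F) {u w : U} (ha : T.Adj u w) (h : F u = w) : F w ≠ u :=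
  (hF.2 u w ha).1 h

theorem tfd_step {F : U → U} (hF : IsField T F) (p : ℕ → U) (m : ℕ)
    (ha : ∀ i < m, T.Adj (p i) (p (i + 1))) (hb : ∀ i, i + 1 < m → p i ≠ p (i + 2))
    (h0 : F (p 0) ≠ p 1) : ∀ j < m, F (p (j + 1)) = p j := by
  intro j
  induction j with
  | zero => intro hj; exact tfd_back hF (ha 0 hj) h0
  | succ j ih =>
    intro hj
    have h1 := ih (by omega)
    refine tfd_back hF (ha (j + 1) hj) ?_
    rw [h1]
    exact hb j hj

theorem tfd_walk (hT : T.Connected) (u v : U) :
    ∃ (k : ℕ) (p : ℕ → U), p 0 = u ∧ p k = v ∧ ∀ i < k, T.Adj (p i) (p (i + 1)) := by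
  obtain ⟨w⟩ := hT.preconnected u v
  refine ⟨w.length, w.getVert, by simp, by simp, fun i hi => ?_⟩
  exact w.adj_getVert_succ hi

theorem tfd_short {u v : U} {k : ℕ} {p : ℕ → U} (h0 : p 0 = u) (hk : p k = v)
    (ha : ∀ i < k, T.Adj (p i) (p (i + 1)))
    (hmin : ∀ k' < k, ¬ ∃ p : ℕ → U, p 0 = u ∧ p k' = v ∧ ∀ i < k', T.Adj (p i) (p (i + 1))) :
    ∀ i, i + 1 < k → p i ≠ p (i + 2) := by
  intro i hi heq
  refine hmin (k - 2) (by omega) ⟨fun j => if j ≤ i then p j else p (j + 2), ?_, ?_, ?_⟩
  · simp [h0]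
  · show (if k - 2 ≤ i then p (k - 2) else p (k - 2 + 2)) = v
    by_cases h : k - 2 ≤ i
    · rw [if_pos h]
      have h2 : k - 2 = i := by omega
      rw [h2, heq, ← hk]
      congr 1; omega
    · rw [if_neg h, ← hk]
      congr 1; omega
  · intro j hj
    show T.Adj (if j ≤ i then p j else p (j + 2)) (if j + 1 ≤ i then p (j + 1) else p (j + 1 + 2))
    by_cases h : j + 1 ≤ i
    · rw [if_pos (by omega), if_pos h]
      exact ha j (by omega)
    · rw [if_neg h]
      by_cases h2 : j ≤ i
      · rw [if_pos h2]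
        have h3 : j = i := by omega
        subst h3
        rw [heq]
        exact ha (j + 2) (by omega)
      · rw [if_neg h2]
        exact ha (j + 2) (by omega)

/-- a field has at most one fixed vertex -/
theorem tfd_fix_unique (hT : T.Connected) {F : U → U} (hF : IsField T F) {u v : U} (hu : F u = u)
    (huv : u ≠ v) : F v ≠ v := by
  classical
  have hex : ∃ k, ∃ p : ℕ → U, p 0 = u ∧ p k = v ∧ ∀ i < k, T.Adj (p i) (p (i + 1)) := tfd_walk hT u v
  obtain ⟨p, h0, hk, ha⟩ := Nat.find_spec hex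
  have hmin := fun k' (hk' : k' < Nat.find hex) => Nat.find_min hex hk'
  set k := Nat.find hex
  have hk0 : 0 < k := by
    rcases Nat.eq_zero_or_pos k with h | h
    · exfalso; rw [h] at hk; exact huv (h0.symm.trans hk)
    · exact h
  have hb := tfd_short h0 hk ha hmin
  have h1 := tfd_step hF p k ha hb (by rw [h0, hu, ← h0]; exact (ha 0 hk0).ne) (k - 1) (by omega)
  have h2 : k - 1 + 1 = k := by omega
  rw [h2, hk] at h1
  rw [h1, ← hk]
  have h3 := (ha (k - 1) (by omega)).ne
  rw [h2] at h3
  exact h3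

end

/-- a bi-infinite non-backtracking line -/
structure TfdLine {U : Type} (T : SimpleGraph U) (l : ℤ → U) : Prop where
  adj : ∀ i, T.Adj (l i) (l (i + 1))
  nb : ∀ i, l i ≠ l (i + 2)

namespace TfdLine

variable {U : Type} {T : SimpleGraph U} {l : ℤ → U}

theorem fwd (h : TfdLine T l) {F : U → U} (hF : IsField T F) (i : ℤ) (h0 : F (l i) ≠ l (i + 1)) (m : ℕ) :
    F (l (i + m + 1)) = l (i + m) := by
  have h1 := tfd_step hF (fun n : ℕ => l (i + n)) (m + 1) (fun n _ => by
    have := h.adj (i + n)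
    have e : i + (n : ℤ) + 1 = i + ((n + 1 : ℕ) : ℤ) := by push_cast; ring
    rw [e] at this
    exact this) (fun n _ => by
    have := h.nb (i + n)
    have e : i + (n : ℤ) + 2 = i + ((n + 2 : ℕ) : ℤ) := by push_cast; ring
    rw [e] at this
    exact this) (by simpa using h0) m (by omega)
  have e : i + (m : ℤ) + 1 = i + ((m + 1 : ℕ) : ℤ) := by push_cast; ring
  rw [e]; exact h1

theorem bwd (h : TfdLine T l) {F : U → U} (hF : IsField T F) (i : ℤ) (h0 : F (l i) ≠ l (i - 1)) (m : ℕ) :
    F (l (i - m - 1)) = l (i - m) := by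
  have h1 := tfd_step hF (fun n : ℕ => l (i - n)) (m + 1) (fun n _ => by
    have := (h.adj (i - n - 1)).symm
    have e : i - (n : ℤ) - 1 + 1 = i - (n : ℤ) := by ring
    have e2 : i - (n : ℤ) - 1 = i - ((n + 1 : ℕ) : ℤ) := by push_cast; ring
    rw [e, e2] at this
    exact this) (fun n _ => by
    have := (h.nb (i - n - 2)).symm
    have e : i - (n : ℤ) - 2 + 2 = i - (n : ℤ) := by ring
    have e2 : i - (n : ℤ) - 2 = i - ((n + 2 : ℕ) : ℤ) := by push_cast; ring
    rw [e, e2] at this
    exact this) (by simpa using h0) m (by omega)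
  have e : i - (m : ℤ) - 1 = i - ((m + 1 : ℕ) : ℤ) := by push_cast; ring
  rw [e]; exact h1

theorem adj_ne (h : TfdLine T l) (i : ℤ) : l i ≠ l (i + 1) := (h.adj i).ne

theorem inj_aux (h : TfdLine T l) {F : U → U} (hF : IsField T F) (i : ℤ) (h0 : F (l i) = l i) (m : ℕ) :
    l (i + m + 1) ≠ l i := by
  intro heq
  have h1 := h.fwd hF i (by rw [h0]; exact h.adj_ne i) m
  rw [heq, h0] at h1
  exact h.adj_ne (i + m) (h1.symm.trans heq.symm)

theorem inj (h : TfdLine T l) (hA : ∀ u0 : U, ∃ N, IsField T N ∧ N u0 = u0) : Function.Injective l := by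
  intro i j hij
  by_contra hne
  rcases lt_or_gt_of_ne hne with hlt | hlt
  · obtain ⟨N, hN, h0⟩ := hA (l i)
    obtain ⟨m, hm⟩ := Int.eq_ofNat_of_zero_le (show 0 ≤ j - i - 1 by omega)
    refine h.inj_aux hN i h0 m ?_
    have : i + (m : ℤ) + 1 = j := by omega
    rw [this, hij]
  · obtain ⟨N, hN, h0⟩ := hA (l j)
    obtain ⟨m, hm⟩ := Int.eq_ofNat_of_zero_le (show 0 ≤ i - j - 1 by omega)
    refine h.inj_aux hN j h0 m ?_
    have : j + (m : ℤ) + 1 = i := by omega
    rw [this, hij]

theorem chord_aux (h : TfdLine T l) (hA : ∀ u0 : U, ∃ N, IsField T N ∧ N u0 = u0) {i j : ℤ} (hij : i < j)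
    (ha : T.Adj (l i) (l j)) : j = i + 1 := by
  obtain ⟨N, hN, h0⟩ := hA (l i)
  obtain ⟨m, hm⟩ := Int.eq_ofNat_of_zero_le (show 0 ≤ j - i - 1 by omega)
  have h1 := h.fwd hN i (by rw [h0]; exact h.adj_ne i) m
  have e : i + (m : ℤ) + 1 = j := by omega
  rw [e] at h1
  have h2 : N (l j) = l i := tfd_back hN ha (by rw [h0]; exact ha.ne)
  have h3 := h.inj hA (h1.symm.trans h2)
  omega

theorem chord (h : TfdLine T l) (hA : ∀ u0 : U, ∃ N, IsField T N ∧ N u0 = u0) {i j : ℤ}
    (ha : T.Adj (l i) (l j)) : j = i + 1 ∨ i = j + 1 := by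
  rcases lt_trichotomy i j with hlt | heq | hlt
  · exact Or.inl (h.chord_aux hA hlt ha)
  · subst heq; exact absurd rfl ha.ne
  · exact Or.inr (h.chord_aux hA hlt ha.symm)

end TfdLine

section
variable {U : Type} {T : SimpleGraph U}

/-- two fields with the same fixed vertex are equal -/
theorem tfd_eq_of_fix (hA : ∀ N N', IsField T N → IsField T N' →
    (∃ u, ∀ k : ℕ, N' (N^[k] u) = N (N^[k] u)) → N = N') {N N' : U → U} (hN : IsField T N)
    (hN' : IsField T N') {u : U} (h : N u = u) (h' : N' u = u) : N = N' := by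
  refine hA N N' hN hN' ⟨u, fun k => ?_⟩
  have : N^[k] u = u := Function.iterate_fixed h k
  rw [this, h, h']

/-- fields of adjacent vertices agree elsewhere -/
theorem tfd_adj_agree (hA : ∀ N N', IsField T N → IsField T N' →
    (∃ u, ∀ k : ℕ, N' (N^[k] u) = N (N^[k] u)) → N = N') {N N' : U → U} (hN : IsField T N)
    (hN' : IsField T N') {v v' : U} (h : N v = v) (h' : N' v' = v') (ha : T.Adj v v') (w : U)
    (hw : w ≠ v) (hw' : w ≠ v') : N w = N' w := by
  classical
  set G : U → U := fun w => if w = v then v' else if w = v' then v' else N w with hG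
  have hne : v ≠ v' := ha.ne
  have hGv : G v = v' := by simp [hG]
  have hGv' : G v' = v' := by simp [hG]
  have hGw : ∀ w, w ≠ v → w ≠ v' → G w = N w := by
    intro w h1 h2; simp [hG, h1, h2]
  have hNv' : N v' = v := tfd_back hN ha (by rw [h]; exact hne)
  have hGF : IsField T G := by
    refine ⟨fun u => ?_, fun a b hab => ?_⟩
    · by_cases h1 : u = v
      · subst h1; right; rw [hGv]; exact ha
      · by_cases h2 : u = v'
        · subst h2; left; exact hGv'
        · rw [hGw u h1 h2]; exact hN.1 u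
    · have key : ∀ a b, T.Adj a b → (a = v ∨ a = v') → (G a = b ↔ G b ≠ a) := by
        intro a b hab h1
        rcases h1 with h1 | h1
        · subst h1
          by_cases h2 : b = v'
          · subst h2
            rw [hGv, hGv']
            exact ⟨fun _ => hne.symm, fun _ => rfl⟩
          · have hb : b ≠ a := hab.ne.symm
            rw [hGv, hGw b hb h2]
            have : N b = a := tfd_back hN hab (by rw [h]; exact hab.ne)
            rw [this]
            exact ⟨fun e => absurd e.symm h2, fun e => absurd rfl e⟩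
        · subst h1
          by_cases h2 : b = v
          · subst h2
            rw [hGv', hGv]
            exact ⟨fun e => absurd e hne.symm, fun e => absurd rfl e⟩
          · have hb : b ≠ a := hab.ne.symm
            rw [hGv', hGw b h2 hb]
            have : N b = a := tfd_back hN hab (by rw [hNv']; exact fun e => h2 e.symm)
            rw [this]
            exact ⟨fun e => absurd e hab.ne, fun e => absurd rfl e⟩
      by_cases h1 : a = v ∨ a = v'
      · exact key a b hab h1
      · by_cases h2 : b = v ∨ b = v'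
        · have := key b a hab.symm h2
          constructor
          · intro e1 e2
            exact this.1 e2 e1
          · intro e1
            by_contra e2
            exact e1 (this.2 e2)
        · push Not at h1 h2
          rw [hGw a h1.1 h1.2, hGw b h2.1 h2.2]
          exact hN.2 a b hab
  have := tfd_eq_of_fix hA hGF hN' hGv' h'
  rw [← this, hGw w hw hw']

/-- the fields of the two ends of a line -/
theorem tfd_line_agree (hA1 : ∀ u0 : U, ∃ N, IsField T N ∧ N u0 = u0)
    (hA : ∀ N N', IsField T N → IsField T N' →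
    (∃ u, ∀ k : ℕ, N' (N^[k] u) = N (N^[k] u)) → N = N') {l : ℤ → U} (h : TfdLine T l)
    (w : U) (hw : ∀ i, w ≠ l i) {N N' : U → U} (hN : IsField T N)
    (hN' : IsField T N') {i j : ℤ} (hi : N (l i) = l i) (hj : N' (l j) = l j) : N w = N' w := by
  have key : ∀ (m : ℕ) (i : ℤ) (N N' : U → U), IsField T N → IsField T N' → N (l i) = l i →
      N' (l (i + m)) = l (i + m) → N w = N' w := by
    intro m
    induction m with
    | zero =>
      intro i N N' hN hN' h1 h2
      have e : i + ((0 : ℕ) : ℤ) = i := by simp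
      rw [e] at h2
      rw [tfd_eq_of_fix hA hN hN' h1 h2]
    | succ m ih =>
      intro i N N' hN hN' h1 h2
      obtain ⟨N2, hN2, h3⟩ := hA1 (l (i + 1))
      have h4 := tfd_adj_agree hA hN hN2 h1 h3 (h.adj i) w (hw _) (hw _)
      have e : i + ((m + 1 : ℕ) : ℤ) = (i + 1) + (m : ℤ) := by push_cast; ring
      rw [e] at h2
      rw [h4]
      exact ih (i + 1) N2 N' hN2 hN' h3 h2
  rcases le_total i j with hij | hij
  · obtain ⟨m, hm⟩ := Int.eq_ofNat_of_zero_le (show 0 ≤ j - i by omega)
    have e : j = i + (m : ℤ) := by omega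
    rw [e] at hj
    exact key m i N N' hN hN' hi hj
  · obtain ⟨m, hm⟩ := Int.eq_ofNat_of_zero_le (show 0 ≤ i - j by omega)
    have e : i = j + (m : ℤ) := by omega
    rw [e] at hi
    exact (key m j N' N hN' hN hj hi).symm

/-- the two ends of a line -/
theorem tfd_ends (hT : T.Connected) (hA1 : ∀ u0 : U, ∃ N, IsField T N ∧ N u0 = u0)
    (hA : ∀ N N', IsField T N → IsField T N' →
    (∃ u, ∀ k : ℕ, N' (N^[k] u) = N (N^[k] u)) → N = N') {l : ℤ → U} (h : TfdLine T l)
    (s : ℤ) (hs : s = 1 ∨ s = -1) :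
    ∃ N, IsField T N ∧ (∀ i, N (l i) = l (i + s)) ∧ (∀ u, N u ≠ u) ∧
      (∀ w, (∀ i, w ≠ l i) → ∀ F i, IsField T F → F (l i) = l i → N w = F w) := by
  classical
  obtain ⟨F0, hF0, h0⟩ := hA1 (l 0)
  have hinj := h.inj hA1
  set N : U → U := fun w => if hw : ∃ i, w = l i then l (hw.choose + s) else F0 w with hN
  have hNl : ∀ i, N (l i) = l (i + s) := by
    intro i
    have hex : ∃ j, l i = l j := ⟨i, rfl⟩
    have h1 : N (l i) = l (hex.choose + s) := by simp only [hN]; rw [dif_pos hex]
    have h2 : i = hex.choose := hinj hex.choose_spec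
    rw [h1, ← h2]
  have hNo : ∀ w, (∀ i, w ≠ l i) → N w = F0 w := by
    intro w hw
    simp only [hN]
    rw [dif_neg (by push Not; exact hw)]
  have hoff : ∀ w, (∀ i, w ≠ l i) → ∀ F i, IsField T F → F (l i) = l i → N w = F w := by
    intro w hw F i hF hi
    rw [hNo w hw]
    exact tfd_line_agree hA1 hA h w hw hF0 hF h0 hi
  have hladj : ∀ i, T.Adj (l i) (l (i + s)) := by
    intro i
    rcases hs with rfl | rfl
    · exact h.adj i
    · have := (h.adj (i + -1)).symm
      have e : i + -1 + 1 = i := by ring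
      rw [e] at this
      exact this
  refine ⟨N, ⟨fun u => ?_, fun a b hab => ?_⟩, hNl, fun u => ?_, hoff⟩
  · by_cases hu : ∃ i, u = l i
    · obtain ⟨i, rfl⟩ := hu
      right; rw [hNl]; exact hladj i
    · push Not at hu
      rw [hNo u hu]; exact hF0.1 u
  · have key : ∀ (i : ℤ) (b : U), T.Adj (l i) b → (N (l i) = b ↔ N b ≠ l i) := by
      intro i b hb
      by_cases hbl : ∃ j, b = l j
      · obtain ⟨j, rfl⟩ := hbl
        rw [hNl, hNl]
        have hc := h.chord hA1 hb
        constructor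
        · intro e1 e2
          have e3 := hinj e1
          have e4 := hinj e2
          rcases hs with rfl | rfl <;> omega
        · intro e1
          have e2 : j + s ≠ i := fun e => e1 (by rw [e])
          congr 1
          rcases hs with rfl | rfl <;> rcases hc with hc | hc <;> omega
      · push Not at hbl
        obtain ⟨F, hF, hFi⟩ := hA1 (l i)
        have h1 : N b = F b := hoff b hbl F i hF hFi
        have h2 : F b = l i := tfd_back hF hb (by rw [hFi]; exact hb.ne)
        rw [hNl, h1, h2]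
        exact ⟨fun e => absurd e.symm (hbl _), fun e => absurd rfl e⟩
    by_cases ha : ∃ i, a = l i
    · obtain ⟨i, rfl⟩ := ha
      exact key i b hab
    · by_cases hb : ∃ i, b = l i
      · obtain ⟨i, rfl⟩ := hb
        have := key i a hab.symm
        constructor
        · intro e1 e2
          exact this.1 e2 e1
        · intro e1
          by_contra e2
          exact e1 (this.2 e2)
      · push Not at ha hb
        rw [hNo a ha, hNo b hb]
        exact hF0.2 a b hab
  · by_cases hu : ∃ i, u = l i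
    · obtain ⟨i, rfl⟩ := hu
      rw [hNl]; exact (hladj i).ne.symm
    · push Not at hu
      rw [hNo u hu]
      exact tfd_fix_unique hT hF0 h0 (fun e => hu 0 e.symm)

end

section
variable {G : Type} [Group G]

theorem tfd_conj {D : Setup G} (g : G) {F : D.U → D.U} (hF : IsField D.T F) :
    IsField D.T (fun u => g • F (g⁻¹ • u)) := by
  refine ⟨fun u => ?_, fun a b hab => ?_⟩
  · rcases hF.1 (g⁻¹ • u) with h | h
    · left; show g • F (g⁻¹ • u) = u
      rw [h, smul_inv_smul]
    · right
      have := Tadj_smul g h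
      rwa [smul_inv_smul] at this
  · have h1 := hF.2 _ _ (Tadj_smul g⁻¹ hab)
    show (g • F (g⁻¹ • a) = b ↔ g • F (g⁻¹ • b) ≠ a)
    rw [← eq_inv_smul_iff, h1, ne_eq, ne_eq, ← eq_inv_smul_iff]

/-- a fixed point free automorphism has an axis -/
theorem tfd_axis (D : Setup G) (h : G) (hh : ¬ Ell D h) :
    ∃ (k : ℕ) (l : ℤ → D.U), 0 < k ∧ TfdLine D.T l ∧ ∀ i, l (i + k) = h • l i := by
  classical
  have hT := D.tree.1
  have hex : ∃ k, ∃ (u : D.U) (p : ℕ → D.U), p 0 = u ∧ p k = h • u ∧
      ∀ i < k, D.T.Adj (p i) (p (i + 1)) := by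
    obtain ⟨k, p, hp⟩ := tfd_walk hT D.u0 (h • D.u0)
    exact ⟨k, D.u0, p, hp⟩
  obtain ⟨u, p, h0, hk, ha⟩ := Nat.find_spec hex
  have hmin := fun k' (hk' : k' < Nat.find hex) => Nat.find_min hex hk'
  set k := Nat.find hex
  have hk0 : 0 < k := by
    rcases Nat.eq_zero_or_pos k with hz | hz
    · exfalso
      rw [hz, h0] at hk
      exact hh ⟨u, hk.symm⟩
    · exact hz
  have hb : ∀ i, i + 1 < k → p i ≠ p (i + 2) :=
    tfd_short h0 hk ha (fun k' hk' ⟨p', hp'⟩ => hmin k' hk' ⟨u, p', hp'⟩)
  have hj : p (k - 1) ≠ h • p 1 := by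
    intro heq
    by_cases hk1 : k = 1
    · -- inversion
      have e1 : p 0 = h • p 1 := by rw [hk1] at heq; exact heq
      have e2 : p 1 = h • p 0 := by rw [hk1] at hk; rw [hk, h0]
      have hadj := ha 0 hk0
      rw [zero_add] at hadj
      rcases (D.adj_iff _ _).1 hadj with h1 | h1
      · have h2 := D.arr_smul h _ _ h1
        rw [← e2, ← e1] at h2
        exact D.arr_asymm _ _ h1 h2
      · have h2 := D.arr_smul h _ _ h1
        rw [← e1, ← e2] at h2
        exact D.arr_asymm _ _ h1 h2
    · refine hmin (k - 2) (by omega) ⟨p 1, fun j => p (j + 1), rfl, ?_, fun i hi => ha (i + 1) (by omega)⟩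
      show p (k - 2 + 1) = h • p 1
      have : k - 2 + 1 = k - 1 := by omega
      rw [this, heq]
  have hkz : (0 : ℤ) < k := by exact_mod_cast hk0
  set l : ℤ → D.U := fun i => h ^ (i / (k : ℤ)) • p (i % (k : ℤ)).toNat with hl
  have hshift : ∀ i, l (i + k) = h • l i := by
    intro i
    have e1 : (i + k) / (k : ℤ) = i / (k : ℤ) + 1 := by
      rw [Int.add_ediv_of_dvd_right (dvd_refl _), Int.ediv_self hkz.ne']
    have e2 : (i + k) % (k : ℤ) = i % (k : ℤ) := by simp
    simp only [hl]
    rw [e1, e2, zpow_add, zpow_one, ← mul_smul, (Commute.refl h).zpow_left _ |>.eq]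
  have hnext : ∀ i, l (i + 1) = h ^ (i / (k : ℤ)) • p ((i % (k : ℤ)).toNat + 1) := by
    intro i
    have hr0 := Int.emod_nonneg i hkz.ne'
    have hr1 := Int.emod_lt_of_pos i hkz
    have hdiv := Int.emod_add_mul_ediv i k
    by_cases hc : i % (k : ℤ) + 1 = k
    · have e1 : (i + 1) = (k : ℤ) * (i / (k : ℤ) + 1) := by
        rw [mul_add, mul_one]; omega
      have e2 : (i + 1) / (k : ℤ) = i / (k : ℤ) + 1 := by
        rw [e1, Int.mul_ediv_cancel_left _ hkz.ne']
      have e3 : (i + 1) % (k : ℤ) = 0 := by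
        rw [e1]; exact Int.mul_emod_right _ _
      have e4 : (i % (k : ℤ)).toNat + 1 = k := by omega
      simp only [hl]
      rw [e2, e3, e4, hk, Int.toNat_zero, h0, zpow_add, zpow_one, mul_smul]
    · have e0 : i + 1 = (i % (k : ℤ) + 1) + k * (i / (k : ℤ)) := by omega
      have e2 : (i + 1) / (k : ℤ) = i / (k : ℤ) := by
        rw [e0, Int.add_mul_ediv_left _ _ hkz.ne', Int.ediv_eq_zero_of_lt (by omega) (by omega)]
        omega
      have e3 : (i + 1) % (k : ℤ) = i % (k : ℤ) + 1 := by
        rw [e0, Int.add_mul_emod_self_left]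
        exact Int.emod_eq_of_lt (by omega) (by omega)
      simp only [hl]
      rw [e2, e3]
      congr 2
      omega
  refine ⟨k, l, hk0, ⟨fun i => ?_, fun i => ?_⟩, hshift⟩
  · rw [hnext]
    have hr0 := Int.emod_nonneg i hkz.ne'
    have hr1 := Int.emod_lt_of_pos i hkz
    exact Tadj_smul _ (ha _ (by omega))
  · have hr0 := Int.emod_nonneg i hkz.ne'
    have hr1 := Int.emod_lt_of_pos i hkz
    have hdiv := Int.emod_add_mul_ediv i k
    have e5 : i + 2 = (i + 1) + 1 := by ring
    rw [e5, hnext]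
    by_cases hc : i % (k : ℤ) + 1 = k
    · have e1 : (i + 1) = (k : ℤ) * (i / (k : ℤ) + 1) := by
        rw [mul_add, mul_one]; omega
      have e2 : (i + 1) / (k : ℤ) = i / (k : ℤ) + 1 := by
        rw [e1, Int.mul_ediv_cancel_left _ hkz.ne']
      have e3 : (i + 1) % (k : ℤ) = 0 := by
        rw [e1]; exact Int.mul_emod_right _ _
      have e4 : (i % (k : ℤ)).toNat = k - 1 := by omega
      simp only [hl]
      rw [e2, e3, e4, Int.toNat_zero, zero_add, zpow_add, zpow_one, mul_smul]
      intro heq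
      exact hj (smul_left_cancel _ heq)
    · have e0 : i + 1 = (i % (k : ℤ) + 1) + k * (i / (k : ℤ)) := by omega
      have e2 : (i + 1) / (k : ℤ) = i / (k : ℤ) := by
        rw [e0, Int.add_mul_ediv_left _ _ hkz.ne', Int.ediv_eq_zero_of_lt (by omega) (by omega)]
        omega
      have e3 : (i + 1) % (k : ℤ) = i % (k : ℤ) + 1 := by
        rw [e0, Int.add_mul_emod_self_left]
        exact Int.emod_eq_of_lt (by omega) (by omega)
      simp only [hl]
      rw [e2, e3]
      intro heq
      have h6 := smul_left_cancel _ heq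
      have e7 : (i % (k : ℤ) + 1).toNat + 1 = (i % (k : ℤ)).toNat + 2 := by omega
      rw [e7] at h6
      exact hb _ (by omega) h6

theorem tfd_hyp (hTFA : ST_TFA) (D : Setup G) (h : G) (hh : ¬ Ell D h) :
    ∃ (N M : D.U → D.U) (k : ℕ), IsField D.T N ∧ IsField D.T M ∧
    (∀ u, N u ≠ u) ∧ (∀ u, M u ≠ u) ∧ (∀ u, N (h • u) = h • N u) ∧ (∀ u, M (h • u) = h • M u) ∧
    0 < k ∧ (∀ u, N u ≠ M u → h • u = N^[k] u) ∧ (∃ u, N u ≠ M u) ∧
    (∀ n : ℕ, 0 < n → ∀ F, IsField D.T F → (∀ u, F (h ^ n • u) = h ^ n • F u) → F = N ∨ F = M) := by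
  obtain ⟨hA1, hA⟩ := hTFA D.U D.T D.tree
  obtain ⟨k, l, hk, hl, hsh⟩ := tfd_axis D h hh
  have hT := D.tree.1
  obtain ⟨N, hN, hNl, hNf, hNo⟩ := tfd_ends hT hA1 hA hl 1 (Or.inl rfl)
  obtain ⟨M, hM, hMl, hMf, hMo⟩ := tfd_ends hT hA1 hA hl (-1) (Or.inr rfl)
  have hinj := hl.inj hA1
  have hsh' : ∀ i, l (i - k) = h⁻¹ • l i := by
    intro i
    rw [eq_inv_smul_iff, ← hsh]
    congr 1; ring
  have hcomm : ∀ (s : ℤ) (N : D.U → D.U), (∀ i, N (l i) = l (i + s)) →
      (∀ w, (∀ i, w ≠ l i) → ∀ F i, IsField D.T F → F (l i) = l i → N w = F w) →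
      ∀ u, N (h • u) = h • N u := by
    intro s N h1 h2 u
    by_cases hu : ∃ i, u = l i
    · obtain ⟨i, rfl⟩ := hu
      rw [← hsh, h1, h1, ← hsh]
      congr 1; ring
    · push Not at hu
      have hu' : ∀ i, h • u ≠ l i := by
        intro i e
        refine hu (i - k) ?_
        rw [hsh', ← e, inv_smul_smul]
      obtain ⟨F, hF, hF0⟩ := hA1 (l 0)
      have h3 := h2 u hu F 0 hF hF0
      have h4 := h2 (h • u) hu' (fun u => h • F (h⁻¹ • u)) (0 + k) (tfd_conj h hF) (by
        show h • F (h⁻¹ • l (0 + k)) = l (0 + k)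
        rw [hsh, inv_smul_smul, hF0])
      rw [h3, h4]
      show h • F (h⁻¹ • h • u) = _
      rw [inv_smul_smul]
  have hiter : ∀ (m : ℕ) (i : ℤ), N^[m] (l i) = l (i + m) := by
    intro m
    induction m with
    | zero => intro i; simp
    | succ m ih =>
      intro i
      rw [Function.iterate_succ_apply, hNl, ih]
      congr 1; push_cast; ring
  have hiterM : ∀ (m : ℕ) (i : ℤ), M^[m] (l i) = l (i - m) := by
    intro m
    induction m with
    | zero => intro i; simp
    | succ m ih =>
      intro i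
      rw [Function.iterate_succ_apply, hMl, ih]
      congr 1; push_cast; ring
  refine ⟨N, M, k, hN, hM, hNf, hMf, hcomm 1 N hNl hNo, hcomm (-1) M hMl hMo, hk, ?_, ?_, ?_⟩
  · intro u hu
    by_cases hul : ∃ i, u = l i
    · obtain ⟨i, rfl⟩ := hul
      rw [hiter, hsh]
    · push Not at hul
      exfalso
      obtain ⟨F, hF, hF0⟩ := hA1 (l 0)
      exact hu ((hNo u hul F 0 hF hF0).trans (hMo u hul F 0 hF hF0).symm)
  · refine ⟨l 0, ?_⟩
    rw [hNl, hMl]
    intro e
    have := hinj e
    omega
  · intro n hn F hF hFh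
    have hshn : ∀ (n : ℕ) (i : ℤ), l (i + n * k) = h ^ n • l i := by
      intro n
      induction n with
      | zero => intro i; simp
      | succ n ih =>
        intro i
        have e : i + ((n + 1 : ℕ) : ℤ) * k = (i + n * k) + k := by push_cast; ring
        rw [e, hsh, ih, pow_succ', mul_smul]
    by_cases hf : ∃ i, F (l i) = l (i + 1)
    · left
      obtain ⟨i, hi⟩ := hf
      -- forward everywhere
      have hshF : ∀ (m : ℕ), F (l (i + m * (n * k))) = l (i + m * (n * k) + 1) := by
        intro m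
        induction m with
        | zero => simpa using hi
        | succ m ih =>
          have e : i + ((m + 1 : ℕ) : ℤ) * (n * k) = (i + m * (n * k)) + n * k := by push_cast; ring
          rw [e, hshn, hFh, ih, ← hshn]
          congr 1; ring
      have hback : ∀ j (m : ℕ), F (l j) = l (j + 1) → F (l (j - m)) = l (j - m + 1) := by
        intro j m hj
        cases m with
        | zero => simpa using hj
        | succ m =>
          have h1 := hl.bwd hF j (by
            rw [hj]; intro e; have := hinj e; omega) m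
          have e : j - ((m + 1 : ℕ) : ℤ) = j - m - 1 := by push_cast; ring
          rw [e, h1]
          congr 1; ring
      have hall : ∀ j, F (l j) = l (j + 1) := by
        intro j
        have hnk : (1 : ℤ) ≤ n * k := by
          have : 0 < n * k := Nat.mul_pos hn hk
          exact_mod_cast this
        have hm : j ≤ i + ((j - i).toNat : ℤ) * (n * k) := by
          have h1 : j - i ≤ ((j - i).toNat : ℤ) := Int.self_le_toNat _
          nlinarith [Int.natCast_nonneg (j - i).toNat]
        obtain ⟨q, hq⟩ := Int.eq_ofNat_of_zero_le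
          (show 0 ≤ i + ((j - i).toNat : ℤ) * (n * k) - j by linarith)
        have h2 := hback _ q (hshF (j - i).toNat)
        have e : i + ((j - i).toNat : ℤ) * (n * k) - q = j := by
          have : (q : ℤ) = i + ((j - i).toNat : ℤ) * (n * k) - j := hq.symm
          rw [this]; ring
        rw [e] at h2
        exact h2
      refine (hA N F hN hF ⟨l 0, fun m => ?_⟩).symm
      rw [hiter, hall, hNl]
    · right
      push Not at hf
      have hall : ∀ j, F (l j) = l (j - 1) := by
        intro j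
        have h1 := hl.adj (j - 1)
        have e : j - 1 + 1 = j := by ring
        have h2 := tfd_back hF h1 (hf (j - 1))
        rw [e] at h2
        exact h2
      refine (hA M F hM hF ⟨l 0, fun m => ?_⟩).symm
      rw [hiterM, hall, hMl]
      congr 1

theorem st_TFD (hTFA : ST_TFA) : ST_TFD := by
  intro G _ D h
  refine ⟨fun n hn hell => ?_, fun hh => tfd_hyp hTFA D h hh⟩
  by_contra hh
  obtain ⟨N, M, k, hN, hM, hNf, hMf, -, -, -, -, -, huniq⟩ := tfd_hyp hTFA D h hh
  obtain ⟨hA1, hA⟩ := hTFA D.U D.T D.tree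
  obtain ⟨u, hu⟩ := hell
  obtain ⟨F, hF, hFu⟩ := hA1 u
  have hconj := tfd_conj (D := D) (h ^ n) hF
  have hfix : (fun w => h ^ n • F ((h ^ n)⁻¹ • w)) u = u := by
    show h ^ n • F ((h ^ n)⁻¹ • u) = u
    have : (h ^ n)⁻¹ • u = u := by rw [inv_smul_eq_iff, hu]
    rw [this, hFu, hu]
  have heq := tfd_eq_of_fix hA hconj hF hfix hFu
  have hinv : ∀ w, F (h ^ n • w) = h ^ n • F w := by
    intro w
    have := congrFun heq (h ^ n • w)
    rw [← this]
    show h ^ n • F ((h ^ n)⁻¹ • h ^ n • w) = _
    rw [inv_smul_smul]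
  rcases huniq n hn F hF hinv with h1 | h1
  · exact hNf u (by rw [← h1]; exact hFu)
  · exact hMf u (by rw [← h1]; exact hFu)

end

end Pool.Agent.Helper93.HZ
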